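import Pool.Agent.H.MP_83ab87_co.Defs

namespace Pool.Agent.H.MP_83ab87_co

open Finset

variable {V W : Type}

open Classical in
def Cov (G : SimpleGraph V) (t : ℝ) : Prop :=
  ∃ (ι : Type) (_ : Fintype ι) (C : ι → Set V) (w : ι → ℝ), (∀ k, G.IsClique (C k)) ∧
    (∀ k, 0 ≤ w k) ∧ (∀ v, 1 ≤ ∑ k, if v ∈ C k then w k else 0) ∧ ∑ k, w k = t

noncomputable def Fup (G : SimpleGraph V) : ℝ := sInf {t | Cov G t}

theorem Cov.nonneg {G : SimpleGraph V} {t : ℝ} (h : Cov G t) : 0 ≤ t := by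
  obtain ⟨ι, _, C, w, -, h2, -, rfl⟩ := h
  exact Finset.sum_nonneg (fun k _ => h2 k)

theorem Fup_le {G : SimpleGraph V} {t : ℝ} (h : Cov G t) : Fup G ≤ t :=
  csInf_le ⟨0, fun _ h => Cov.nonneg h⟩ h

theorem Fup_nonneg (G : SimpleGraph V) : 0 ≤ Fup G :=
  Real.sInf_nonneg (fun _ h => Cov.nonneg h)

theorem le_Fup {G : SimpleGraph V} (hG : ∃ t, Cov G t) {a : ℝ} (h : ∀ t, Cov G t → a ≤ t) :
    a ≤ Fup G := le_csInf hG h

theorem Cov.mono {G : SimpleGraph V} {H : SimpleGraph W} (h : Cohom G H) {t : ℝ}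
    (c : Cov H t) : Cov G t := by
  obtain ⟨f, hf⟩ := h
  obtain ⟨ι, _, C, w, h1, h2, h3, h4⟩ := c
  refine ⟨ι, inferInstance, fun k => f ⁻¹' C k, w, fun k u hu v hv huv => ?_, h2,
    fun v => h3 (f v), h4⟩
  by_contra c
  exact (hf u v huv c).2 (h1 k hu hv (hf u v huv c).1)

theorem Fup_mono {G : SimpleGraph V} {H : SimpleGraph W} (h : Cohom G H) (hH : ∃ t, Cov H t) :
    Fup G ≤ Fup H := le_Fup hH (fun _ c => Fup_le (c.mono h))

theorem cov_bot (n : ℕ) : Cov (⊥ : SimpleGraph (Fin n)) n := by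
  refine ⟨Fin n, inferInstance, fun k => {k}, fun _ => 1, fun k => by simp, fun _ => zero_le_one,
    fun v => by simp, by simp⟩

open Classical in
theorem low {ι : Type} [Fintype ι] {c : ℕ} (C : ι → Set V) (w : ι → ℝ) (p : Fin c → V)
    (hw : ∀ k, 0 ≤ w k) (h1 : ∀ k a b, p a ∈ C k → p b ∈ C k → a = b)
    (h2 : ∀ v, 1 ≤ ∑ k, if v ∈ C k then w k else 0) : (c : ℝ) ≤ ∑ k, w k := by
  calc (c : ℝ) = ∑ _a : Fin c, (1 : ℝ) := by simp
    _ ≤ ∑ a : Fin c, ∑ k, if p a ∈ C k then w k else 0 := Finset.sum_le_sum (fun a _ => h2 _)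
    _ = ∑ k, ∑ a : Fin c, if p a ∈ C k then w k else 0 := Finset.sum_comm
    _ ≤ ∑ k, w k := by
      refine Finset.sum_le_sum (fun k _ => ?_)
      rw [← Finset.sum_filter, Finset.sum_const, nsmul_eq_mul]
      have : (univ.filter (fun a : Fin c => p a ∈ C k)).card ≤ 1 := by
        rw [Finset.card_le_one]
        intro a ha b hb
        exact h1 k a b (Finset.mem_filter.mp ha).2 (Finset.mem_filter.mp hb).2
      have : ((univ.filter (fun a : Fin c => p a ∈ C k)).card : ℝ) ≤ 1 := by exact_mod_cast this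
      nlinarith [hw k]

theorem Fup_bot (n : ℕ) : Fup (⊥ : SimpleGraph (Fin n)) = n := by
  refine le_antisymm (Fup_le (cov_bot n)) (le_Fup ⟨_, cov_bot n⟩ ?_)
  rintro t ⟨ι, _, C, w, h1, h2, h3, rfl⟩
  refine low C w id h2 (fun k a b ha hb => ?_) h3
  by_contra c
  exact h1 k ha hb c

theorem Cov.sum {G : SimpleGraph V} {H : SimpleGraph W} {s t : ℝ} (c : Cov G s) (d : Cov H t) :
    Cov (G ⊕g H) (s + t) := by
  classical
  obtain ⟨ι, _, C, w, h1, h2, h3, rfl⟩ := c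
  obtain ⟨κ, _, D, z, g1, g2, g3, rfl⟩ := d
  refine ⟨ι ⊕ κ, inferInstance, Sum.elim (fun k => Sum.inl '' C k) (fun k => Sum.inr '' D k),
    Sum.elim w z, ?_, ?_, ?_, by simp⟩
  · rintro (k | k)
    · rintro _ ⟨u, hu, rfl⟩ _ ⟨v, hv, rfl⟩ huv
      simpa using h1 k hu hv (by simpa using huv)
    · rintro _ ⟨u, hu, rfl⟩ _ ⟨v, hv, rfl⟩ huv
      simpa using g1 k hu hv (by simpa using huv)
  · rintro (k | k)
    · exact h2 k
    · exact g2 k
  · rintro (v | v)
    · simpa using h3 v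
    · simpa using g3 v

theorem sum_low {G : SimpleGraph V} {H : SimpleGraph W} {t : ℝ} (c : Cov (G ⊕g H) t) :
    Fup G + Fup H ≤ t := by
  classical
  obtain ⟨ι, _, C, w, h1, h2, h3, rfl⟩ := c
  have a1 : Cov G (∑ k, if (Sum.inl ⁻¹' C k).Nonempty then w k else 0) := by
    refine ⟨ι, inferInstance, fun k => Sum.inl ⁻¹' C k, _, fun k u hu v hv huv => ?_,
      fun k => ?_, fun v => ?_, rfl⟩
    · simpa using h1 k hu hv (by simpa using huv)
    · split_ifs
      · exact h2 k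
      · exact le_rfl
    · refine (h3 (Sum.inl v)).trans (le_of_eq (Finset.sum_congr rfl (fun k _ => ?_)))
      by_cases q : Sum.inl v ∈ C k
      · rw [if_pos q, if_pos (show v ∈ Sum.inl ⁻¹' C k from q), if_pos ⟨v, q⟩]
      · rw [if_neg q, if_neg (show v ∉ Sum.inl ⁻¹' C k from q)]
  have a2 : Cov H (∑ k, if (Sum.inl ⁻¹' C k).Nonempty then 0 else w k) := by
    refine ⟨ι, inferInstance, fun k => Sum.inr ⁻¹' C k, _, fun k u hu v hv huv => ?_,
      fun k => ?_, fun v => ?_, rfl⟩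
    · simpa using h1 k hu hv (by simpa using huv)
    · split_ifs
      · exact le_rfl
      · exact h2 k
    · refine (h3 (Sum.inr v)).trans (le_of_eq (Finset.sum_congr rfl (fun k _ => ?_)))
      by_cases q : Sum.inr v ∈ C k
      · rw [if_pos q, if_pos (show v ∈ Sum.inr ⁻¹' C k from q), if_neg]
        rintro ⟨u, hu⟩
        simpa using h1 k hu q (by simp)
      · rw [if_neg q, if_neg (show v ∉ Sum.inr ⁻¹' C k from q)]
  refine (add_le_add (Fup_le a1) (Fup_le a2)).trans (le_of_eq ?_)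
  rw [← Finset.sum_add_distrib]
  refine Finset.sum_congr rfl (fun k _ => ?_)
  split_ifs <;> simp

theorem Fup_sum {G : SimpleGraph V} {H : SimpleGraph W} (hG : ∃ t, Cov G t)
    (hH : ∃ t, Cov H t) : Fup (G ⊕g H) = Fup G + Fup H := by
  obtain ⟨s0, hs⟩ := hG
  obtain ⟨t0, ht⟩ := hH
  refine le_antisymm ?_ (le_Fup ⟨_, hs.sum ht⟩ (fun t c => sum_low c))
  have : Fup (G ⊕g H) - Fup G ≤ Fup H := by
    refine le_Fup ⟨_, ht⟩ (fun t d => ?_)
    have : Fup (G ⊕g H) - t ≤ Fup G :=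
      le_Fup ⟨_, hs⟩ (fun s c => by linarith [Fup_le (c.sum d)])
    linarith
  linarith

theorem Cov.prod {G : SimpleGraph V} {H : SimpleGraph W} {s t : ℝ} (c : Cov G s) (d : Cov H t) :
    Cov (strong G H) (s * t) := by
  classical
  obtain ⟨ι, _, C, w, h1, h2, h3, rfl⟩ := c
  obtain ⟨κ, _, D, z, g1, g2, g3, rfl⟩ := d
  refine ⟨ι × κ, inferInstance, fun k => C k.1 ×ˢ D k.2, fun k => w k.1 * z k.2, ?_,
    fun k => mul_nonneg (h2 _) (g2 _), fun v => ?_, ?_⟩
  · intro k u hu v hv huv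
    refine ⟨huv, ?_, ?_⟩
    · by_cases q : u.1 = v.1
      · exact Or.inl q
      · exact Or.inr (h1 _ hu.1 hv.1 q)
    · by_cases q : u.2 = v.2
      · exact Or.inl q
      · exact Or.inr (g1 _ hu.2 hv.2 q)
  · refine (one_le_mul_of_one_le_of_one_le (h3 v.1) (g3 v.2)).trans (le_of_eq ?_)
    rw [Finset.sum_mul_sum, Fintype.sum_prod_type]
    refine Finset.sum_congr rfl (fun a _ => Finset.sum_congr rfl (fun b _ => ?_))
    by_cases q1 : v.1 ∈ C a <;> by_cases q2 : v.2 ∈ D b <;> simp [q1, q2, Set.mem_prod]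
  · rw [Finset.sum_mul_sum, Fintype.sum_prod_type]

theorem prod_low {G : SimpleGraph V} {H : SimpleGraph W} {t : ℝ} (c : Cov (strong G H) t) :
    Fup G * Fup H ≤ t := by
  classical
  rcases (Fup_nonneg G).eq_or_lt with e | pos
  · rw [← e, zero_mul]; exact c.nonneg
  obtain ⟨ι, _, C, w, h1, h2, h3, rfl⟩ := c
  have a1 : ∀ y : W, Cov G (∑ k, if y ∈ Prod.snd '' C k then w k else 0) := by
    intro y
    refine ⟨ι, inferInstance, fun k => Prod.fst '' C k, _, ?_, fun k => ?_, fun v => ?_, rfl⟩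
    · rintro k _ ⟨u, hu, rfl⟩ _ ⟨v, hv, rfl⟩ huv
      exact (h1 k hu hv (fun e => huv (congrArg _ e))).2.1.resolve_left huv
    · split_ifs
      · exact h2 k
      · exact le_rfl
    · refine (h3 (v, y)).trans (Finset.sum_le_sum (fun k _ => ?_))
      by_cases q : (v, y) ∈ C k
      · rw [if_pos q, if_pos ⟨_, q, rfl⟩, if_pos ⟨_, q, rfl⟩]
      · rw [if_neg q]
        split_ifs
        · exact h2 k
        · exact le_rfl
        · exact le_rfl
  have a2 : Cov H ((∑ k, w k) / Fup G) := by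
    refine ⟨ι, inferInstance, fun k => Prod.snd '' C k, fun k => w k / Fup G, ?_,
      fun k => div_nonneg (h2 k) pos.le, fun y => ?_, by rw [Finset.sum_div]⟩
    · rintro k _ ⟨u, hu, rfl⟩ _ ⟨v, hv, rfl⟩ huv
      exact (h1 k hu hv (fun e => huv (congrArg _ e))).2.2.resolve_left huv
    · have := (one_le_div pos).mpr (Fup_le (a1 y))
      rw [Finset.sum_div] at this
      refine this.trans (le_of_eq (Finset.sum_congr rfl (fun k _ => ?_)))
      split_ifs <;> simp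
  have := Fup_le a2
  rw [le_div_iff₀ pos] at this
  linarith

theorem le_Fup_mul {G : SimpleGraph V} (hG : ∃ t, Cov G t) {a c : ℝ} (hc : 0 ≤ c)
    (h : ∀ t, Cov G t → a ≤ t * c) : a ≤ Fup G * c := by
  rcases hc.eq_or_lt with e | pos
  · obtain ⟨t, ht⟩ := hG
    have := h t ht
    rw [← e, mul_zero] at this ⊢
    exact this
  · rw [← div_le_iff₀ pos]
    exact le_Fup hG (fun t ht => by rw [div_le_iff₀ pos]; exact h t ht)

theorem Fup_prod {G : SimpleGraph V} {H : SimpleGraph W} (hG : ∃ t, Cov G t)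
    (hH : ∃ t, Cov H t) : Fup (strong G H) = Fup G * Fup H := by
  obtain ⟨s0, hs⟩ := hG
  obtain ⟨t0, ht⟩ := hH
  refine le_antisymm ?_ (le_Fup ⟨_, hs.prod ht⟩ (fun t c => prod_low c))
  rw [mul_comm]
  refine le_Fup_mul ⟨_, ht⟩ (Fup_nonneg G) (fun t d => ?_)
  rw [mul_comm]
  exact le_Fup_mul ⟨_, hs⟩ d.nonneg (fun s c => Fup_le (c.prod d))

theorem Gr.cov (A : Gr) : ∃ t, Cov A.G t := by
  obtain ⟨n, h⟩ := A.cover
  exact ⟨n, (cov_bot n).mono h⟩

theorem Fup_mem : (fun A : Gr => Fup A.G) ∈ Spectrum :=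
  ⟨fun _ => Fup_nonneg _, fun A B => Fup_sum A.cov B.cov, fun A B => Fup_prod A.cov B.cov,
    fun n => Fup_bot n, fun _ B h => Fup_mono h B.cov⟩

end Pool.Agent.H.MP_83ab87_co
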