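import Pool.Agent.H.MP_83ab87_co.A

namespace Pool.Agent.H.MP_83ab87_co

open Finset

variable {V W U U' : Type}

theorem Cohom.refl (G : SimpleGraph V) : Cohom G G := ⟨id, fun _ _ h1 h2 => ⟨h1, h2⟩⟩

theorem Cohom.trans {G : SimpleGraph V} {H : SimpleGraph W} {K : SimpleGraph U}
    (a : Cohom G H) (b : Cohom H K) : Cohom G K := by
  obtain ⟨f, hf⟩ := a
  obtain ⟨g, hg⟩ := b
  exact ⟨g ∘ f, fun u v h1 h2 => hg _ _ (hf u v h1 h2).1 (hf u v h1 h2).2⟩

theorem Cohom.sum {G : SimpleGraph V} {H : SimpleGraph W} {K : SimpleGraph U}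
    {L : SimpleGraph U'} (a : Cohom K G) (b : Cohom L H) : Cohom (K ⊕g L) (G ⊕g H) := by
  obtain ⟨f, hf⟩ := a
  obtain ⟨g, hg⟩ := b
  refine ⟨Sum.map f g, ?_⟩
  rintro (u | u) (v | v) h1 h2
  · simpa using hf u v (by simpa using h1) (by simpa using h2)
  · simp
  · simp
  · simpa using hg u v (by simpa using h1) (by simpa using h2)

theorem strong_cohom {G : SimpleGraph V} {H : SimpleGraph W} {K : SimpleGraph U}
    {L : SimpleGraph U'} (f : U → V) (g : U' → W)
    (hf : ∀ u v, u ≠ v → ¬ K.Adj u v → f u ≠ f v ∧ ¬ G.Adj (f u) (f v))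
    (hg : ∀ u v, u ≠ v → ¬ L.Adj u v → g u ≠ g v ∧ ¬ H.Adj (g u) (g v)) :
    Cohom (strong K L) (strong G H) := by
  refine ⟨Prod.map f g, fun u v h1 h2 => ?_⟩
  have key : ¬ ((f u.1 = f v.1 ∨ G.Adj (f u.1) (f v.1)) ∧
      (g u.2 = g v.2 ∨ H.Adj (g u.2) (g v.2))) := by
    rintro ⟨p, q⟩
    refine h2 ⟨h1, ?_, ?_⟩
    · by_contra c
      have := hf _ _ (fun q => c (Or.inl q)) (fun q => c (Or.inr q))
      exact p.elim this.1 this.2
    · by_contra c
      have := hg _ _ (fun q => c (Or.inl q)) (fun q => c (Or.inr q))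
      exact q.elim this.1 this.2
  exact ⟨fun e => key ⟨Or.inl (congrArg Prod.fst e), Or.inl (congrArg Prod.snd e)⟩,
    fun a => key a.2⟩

theorem Cohom.prod {G : SimpleGraph V} {H : SimpleGraph W} {K : SimpleGraph U}
    {L : SimpleGraph U'} (a : Cohom K G) (b : Cohom L H) : Cohom (strong K L) (strong G H) := by
  obtain ⟨f, hf⟩ := a
  obtain ⟨g, hg⟩ := b
  exact strong_cohom f g hf hg

theorem cohom_induce (G : SimpleGraph V) (S : Set V) : Cohom (G.induce S) G :=
  ⟨Subtype.val, fun _ _ h1 h2 => ⟨fun e => h1 (Subtype.ext e), h2⟩⟩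

theorem fin_cov [Finite U] (K : SimpleGraph U) : ∃ t, Cov K t :=
  ⟨_, (cov_bot (Nat.card U)).mono
    ⟨Finite.equivFin U, fun _ _ h _ => ⟨fun e => h ((Finite.equivFin U).injective e), id⟩⟩⟩

def LS (G : SimpleGraph V) : Set ℝ :=
  {x | ∃ (A : Type) (_ : Finite A) (K : SimpleGraph A), Cohom K G ∧ x = Fup K}

noncomputable def Flow (G : SimpleGraph V) : ℝ := sSup (LS G)

theorem LS_ne (G : SimpleGraph V) : (LS G).Nonempty :=
  ⟨_, Empty, inferInstance, ⊥, ⟨fun x => x.elim, fun x => x.elim⟩, rfl⟩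

theorem Flow_le {G : SimpleGraph V} {a : ℝ}
    (h : ∀ (A : Type) [Finite A] (K : SimpleGraph A), Cohom K G → Fup K ≤ a) : Flow G ≤ a := by
  refine csSup_le (LS_ne G) ?_
  rintro x ⟨A, _, K, hK, rfl⟩
  exact h A K hK

theorem le_Flow {G : SimpleGraph V} (hG : ∃ t, Cov G t) [Finite U] {K : SimpleGraph U}
    (h : Cohom K G) : Fup K ≤ Flow G := by
  refine le_csSup ⟨Fup G, ?_⟩ ⟨U, inferInstance, K, h, rfl⟩
  rintro x ⟨A, _, K, hK, rfl⟩
  exact Fup_mono hK hG

theorem Flow_nonneg (G : SimpleGraph V) : 0 ≤ Flow G := by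
  refine Real.sSup_nonneg ?_
  rintro x ⟨A, _, K, hK, rfl⟩
  exact Fup_nonneg _

theorem Flow_fin [Finite V] (G : SimpleGraph V) : Flow G = Fup G :=
  le_antisymm (Flow_le (fun _ _ _ h => Fup_mono h (fin_cov G))) (le_Flow (fin_cov G) (.refl G))

theorem Flow_mono {G : SimpleGraph V} {H : SimpleGraph W} (h : Cohom G H) (hH : ∃ t, Cov H t) :
    Flow G ≤ Flow H := Flow_le (fun _ _ _ k => le_Flow hH (k.trans h))

theorem Flow_sum {G : SimpleGraph V} {H : SimpleGraph W} (hG : ∃ t, Cov G t)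
    (hH : ∃ t, Cov H t) : Flow (G ⊕g H) = Flow G + Flow H := by
  have hGH : ∃ t, Cov (G ⊕g H) t := by
    obtain ⟨s0, hs⟩ := hG
    obtain ⟨t0, ht⟩ := hH
    exact ⟨_, hs.sum ht⟩
  apply le_antisymm
  · refine Flow_le ?_
    rintro A _ K ⟨f, hf⟩
    let S : Set V := Sum.inl ⁻¹' Set.range f
    let T : Set W := Sum.inr ⁻¹' Set.range f
    have : Finite S := (Set.finite_range f).preimage Sum.inl_injective.injOn
    have : Finite T := (Set.finite_range f).preimage Sum.inr_injective.injOn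
    have hk : Cohom K (G.induce S ⊕g H.induce T) := by
      have ex : ∀ a, ∃ y : S ⊕ T, Sum.map Subtype.val Subtype.val y = f a := by
        intro a
        rcases e : f a with v | v
        · exact ⟨Sum.inl ⟨v, a, e⟩, rfl⟩
        · exact ⟨Sum.inr ⟨v, a, e⟩, rfl⟩
      choose g hg using ex
      refine ⟨g, fun u v h1 h2 => ?_⟩
      have := hf u v h1 h2
      rw [← hg, ← hg] at this
      refine ⟨fun e => this.1 (by rw [e]), fun a => this.2 ?_⟩
      revert a
      rcases g u with p | p <;> rcases g v with q | q <;> simp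
    refine (Fup_mono hk (fin_cov _)).trans ?_
    rw [Fup_sum (fin_cov _) (fin_cov _)]
    exact add_le_add (le_Flow hG (cohom_induce G S)) (le_Flow hH (cohom_induce H T))
  · have : Flow H ≤ Flow (G ⊕g H) - Flow G := by
      refine Flow_le (fun B _ L hL => ?_)
      have : Flow G ≤ Flow (G ⊕g H) - Fup L := by
        refine Flow_le (fun A _ K hK => ?_)
        have := le_Flow hGH (hK.sum hL)
        rw [Fup_sum (fin_cov _) (fin_cov _)] at this
        linarith
      linarith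
    linarith

theorem Flow_mul_le {G : SimpleGraph V} {a c : ℝ} (hc : 0 ≤ c)
    (h : ∀ (A : Type) [Finite A] (K : SimpleGraph A), Cohom K G → Fup K * c ≤ a) :
    Flow G * c ≤ a := by
  rcases hc.eq_or_lt with e | pos
  · obtain ⟨x, A, _, K, hK, rfl⟩ := LS_ne G
    have := h A K hK
    rw [← e, mul_zero] at this ⊢
    exact this
  · rw [← le_div_iff₀ pos]
    exact Flow_le (fun A _ K hK => by rw [le_div_iff₀ pos]; exact h A K hK)

theorem Flow_prod {G : SimpleGraph V} {H : SimpleGraph W} (hG : ∃ t, Cov G t)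
    (hH : ∃ t, Cov H t) : Flow (strong G H) = Flow G * Flow H := by
  have hGH : ∃ t, Cov (strong G H) t := by
    obtain ⟨s0, hs⟩ := hG
    obtain ⟨t0, ht⟩ := hH
    exact ⟨_, hs.prod ht⟩
  apply le_antisymm
  · refine Flow_le ?_
    rintro A _ K ⟨f, hf⟩
    let S : Set V := Set.range (fun a => (f a).1)
    let T : Set W := Set.range (fun a => (f a).2)
    have hk : Cohom K (strong (G.induce S) (H.induce T)) := by
      refine ⟨fun a => (⟨(f a).1, a, rfl⟩, ⟨(f a).2, a, rfl⟩), fun u v h1 h2 => ?_⟩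
      have := hf u v h1 h2
      refine ⟨fun e => this.1 ?_, fun a => this.2 ⟨this.1, ?_, ?_⟩⟩
      · exact Prod.ext (congrArg (fun x : S × T => x.1.1) e) (congrArg (fun x : S × T => x.2.1) e)
      · exact a.2.1.imp (congrArg Subtype.val) id
      · exact a.2.2.imp (congrArg Subtype.val) id
    refine (Fup_mono hk (fin_cov _)).trans ?_
    rw [Fup_prod (fin_cov _) (fin_cov _)]
    exact mul_le_mul (le_Flow hG (cohom_induce G S)) (le_Flow hH (cohom_induce H T))
      (Fup_nonneg _) (Flow_nonneg _)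
  · refine Flow_mul_le (Flow_nonneg _) (fun A _ K hK => ?_)
    rw [mul_comm]
    refine Flow_mul_le (Fup_nonneg _) (fun B _ L hL => ?_)
    have := le_Flow hGH (hK.prod hL)
    rw [Fup_prod (fin_cov _) (fin_cov _)] at this
    linarith

theorem Flow_mem : (fun A : Gr => Flow A.G) ∈ Spectrum :=
  ⟨fun _ => Flow_nonneg _, fun A B => Flow_sum A.cov B.cov, fun A B => Flow_prod A.cov B.cov,
    fun n => (Flow_fin (⊥ : SimpleGraph (Fin n))).trans (Fup_bot n),
    fun _ B h => Flow_mono h B.cov⟩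

theorem le_dist (A B : Gr) {F : Gr → ℝ} (hF : F ∈ Spectrum) : |F A - F B| ≤ dist A B := by
  refine le_csSup ?_ ⟨F, hF, rfl⟩
  obtain ⟨n, hn⟩ := A.cover
  obtain ⟨m, hm⟩ := B.cover
  refine ⟨n + m, ?_⟩
  rintro _ ⟨F, ⟨h1, -, -, h4, h5⟩, rfl⟩
  have a := h5 A (Gr.E n) hn
  have b := h5 B (Gr.E m) hm
  rw [h4] at a b
  have := h1 A
  have := h1 B
  simp only
  rw [abs_le]
  constructor <;> linarith

/-- covering lemma behind the bound four for shift graphs -/
theorem cov_four {β : Type} [Finite β] (K : SimpleGraph U) (a b : U → β) (hab : ∀ u, a u ≠ b u)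
    (h : ∀ u v, u ≠ v → ¬ K.Adj u v → b u = a v ∨ b v = a u) : Cov K 4 := by
  classical
  have := Fintype.ofFinite β
  have pos : (0 : ℝ) < Fintype.card (β → Bool) := by exact_mod_cast Fintype.card_pos
  refine ⟨β → Bool, inferInstance, fun T => {u | T (a u) = true ∧ T (b u) = false},
    fun _ => 4 / Fintype.card (β → Bool), fun T u hu v hv huv => ?_, fun _ => by positivity,
    fun u => ?_, ?_⟩
  · by_contra c
    rcases h u v huv c with e | e
    · have := hu.2; rw [e, hv.1] at this; exact absurd this (by simp)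
    · have := hv.2; rw [e, hu.1] at this; exact absurd this (by simp)
  · have red : ((1 : ℝ) ≤ ∑ T : β → Bool, (if T (a u) = true ∧ T (b u) = false then
        4 / (Fintype.card (β → Bool) : ℝ) else 0)) →
        (1 : ℝ) ≤ ∑ T : β → Bool, @ite _ (u ∈ {u | T (a u) = true ∧ T (b u) = false})
          (Classical.propDecidable _) (4 / (Fintype.card (β → Bool) : ℝ)) 0 := by
      intro q
      convert q using 2 with T
      by_cases c : T (a u) = true ∧ T (b u) = false
      · rw [if_pos c, if_pos (show u ∈ {u | T (a u) = true ∧ T (b u) = false} from c)]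
      · rw [if_neg c, if_neg (show u ∉ {u | T (a u) = true ∧ T (b u) = false} from c)]
    apply red
    rw [← Finset.sum_filter, Finset.sum_const, nsmul_eq_mul, ← mul_div_assoc, one_le_div pos]
    have key : Fintype.card (β → Bool) ≤ Fintype.card
        (Bool × Bool × {T : β → Bool // T (a u) = true ∧ T (b u) = false}) := by
      refine Fintype.card_le_of_injective (fun T => (T (a u), T (b u),
        ⟨Function.update (Function.update T (a u) true) (b u) false, by simp [hab u], by simp⟩)) ?_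
      intro T T' e
      simp only [Prod.mk.injEq, Subtype.mk.injEq] at e
      funext z
      by_cases z1 : z = a u
      · rw [z1]; exact e.1
      by_cases z2 : z = b u
      · rw [z2]; exact e.2.1
      simpa [z1, z2] using congrFun e.2.2 z
    rw [Fintype.card_prod, Fintype.card_prod, Fintype.card_bool, Fintype.card_subtype] at key
    have key' : (Fintype.card (β → Bool) : ℝ) ≤
        ((2 * (2 * (univ.filter (fun T : β → Bool => T (a u) = true ∧ T (b u) = false)).card) : ℕ) : ℝ) := by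
      exact_mod_cast key
    push_cast at key'
    refine key'.trans (le_of_eq ?_)
    ring
  · rw [Finset.sum_const, Finset.card_univ, nsmul_eq_mul]
    field_simp

abbrev Pr : Type := {p : ℕ × ℕ // p.1 < p.2}

def NA {c : ℕ} (x y : Fin c × Pr) : Prop :=
  x.1 ≠ y.1 ∧ (x.2.1.2 = y.2.1.1 ∨ y.2.1.2 = x.2.1.1)

def Sh (c : ℕ) : SimpleGraph (Fin c × Pr) where
  Adj x y := x ≠ y ∧ ¬ NA x y
  symm := ⟨fun _ _ h => ⟨h.1.symm, fun q => h.2 ⟨q.1.symm, q.2.symm⟩⟩⟩
  loopless := ⟨fun _ h => h.1 rfl⟩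

theorem Sh_na {c : ℕ} {x y : Fin c × Pr} (h1 : x ≠ y) (h2 : ¬ (Sh c).Adj x y) : NA x y := by
  by_contra q
  exact h2 ⟨h1, q⟩

def ShG (c : ℕ) : Gr where
  V := Fin c × Pr
  G := Sh c
  card_le := Cardinal.mk_le_aleph0.trans Cardinal.aleph0_le_continuum
  cover := ⟨c, Prod.fst, fun _ _ h1 h2 => ⟨(Sh_na h1 h2).1, id⟩⟩

theorem Flow_Sh (c : ℕ) : Flow (Sh c) ≤ 4 := by
  refine Flow_le ?_
  rintro A _ K ⟨f, hf⟩
  let B : Set ℕ := Set.range (fun u => (f u).2.1.1) ∪ Set.range (fun u => (f u).2.1.2)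
  have : Finite B := (Set.finite_range _).union (Set.finite_range _)
  refine Fup_le (cov_four (β := B) K (fun u => ⟨(f u).2.1.1, Or.inl ⟨u, rfl⟩⟩)
    (fun u => ⟨(f u).2.1.2, Or.inr ⟨u, rfl⟩⟩)
    (fun u e => (f u).2.2.ne (congrArg Subtype.val e)) (fun u v h1 h2 => ?_))
  have := hf u v h1 h2
  exact (Sh_na this.1 this.2).2.imp Subtype.ext Subtype.ext

theorem Fup_Sh (c : ℕ) : (c : ℝ) ≤ Fup (Sh c) := by
  refine le_Fup (ShG c).cov ?_
  rintro t ⟨ι, _, C, w, h1, h2, h3, rfl⟩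
  let col : Pr → ι → Fin c → Prop := fun p k a => (a, p) ∈ C k
  let A : ℕ → Set (ι → Fin c → Prop) := fun j => {x | ∃ l, ∃ h : j < l, x = col ⟨(j, l), h⟩}
  have ex : ∃ i j, i < j ∧ A i = A j := by
    obtain ⟨i, j, hij, e⟩ := Finite.exists_ne_map_eq_of_infinite A
    rcases lt_or_gt_of_ne hij with h | h
    · exact ⟨i, j, h, e⟩
    · exact ⟨j, i, h, e.symm⟩
  obtain ⟨i, j, hij, e⟩ := ex
  have : col ⟨(i, j), hij⟩ ∈ A j := e ▸ ⟨j, hij, rfl⟩
  obtain ⟨l, hl, e2⟩ := this
  refine low C w (fun a => (a, ⟨(i, j), hij⟩)) h2 (fun k a b ha hb => ?_) h3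
  by_contra ne
  have hb' : (b, (⟨(j, l), hl⟩ : Pr)) ∈ C k := by
    have : col ⟨(i, j), hij⟩ k b := hb
    rw [e2] at this
    exact this
  exact (h1 k ha hb' (fun q => ne (congrArg Prod.fst q))).2 ⟨ne, Or.inl rfl⟩

end Pool.Agent.H.MP_83ab87_co
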