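import Mathlib

namespace Pool.Agent.H.MP_83ab87_co

/-- `G ≤ H`: there is a cohomomorphism from `G` to `H`. -/
def Cohom {V W : Type} (G : SimpleGraph V) (H : SimpleGraph W) : Prop :=
  ∃ f : V → W, ∀ u v, u ≠ v → ¬ G.Adj u v → f u ≠ f v ∧ ¬ H.Adj (f u) (f v)

/-- The strong product. -/
def strong {V W : Type} (G : SimpleGraph V) (H : SimpleGraph W) : SimpleGraph (V × W) where
  Adj x y := x ≠ y ∧ (x.1 = y.1 ∨ G.Adj x.1 y.1) ∧ (x.2 = y.2 ∨ H.Adj x.2 y.2)
  symm := ⟨fun _ _ h => ⟨h.1.symm, h.2.1.imp Eq.symm G.adj_symm, h.2.2.imp Eq.symm H.adj_symm⟩⟩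
  loopless := ⟨fun _ h => h.1 rfl⟩

/-- Graphs with at most continuum many vertices and finite clique covering number. -/
structure Gr where
  V : Type
  G : SimpleGraph V
  card_le : Cardinal.mk V ≤ Cardinal.continuum
  cover : ∃ n, Cohom G (⊥ : SimpleGraph (Fin n))

/-- The edgeless graph on `n` vertices. -/
def Gr.E (n : ℕ) : Gr where
  V := Fin n
  G := ⊥
  card_le := Cardinal.mk_le_aleph0.trans Cardinal.aleph0_le_continuum
  cover := ⟨n, id, fun _ _ h _ => ⟨h, id⟩⟩

/-- Disjoint union. -/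
def Gr.sum (A B : Gr) : Gr where
  V := A.V ⊕ B.V
  G := A.G ⊕g B.G
  card_le := by
    simpa using Cardinal.add_le_of_le Cardinal.aleph0_le_continuum A.card_le B.card_le
  cover := by
    obtain ⟨n, f, hf⟩ := A.cover
    obtain ⟨m, g, hg⟩ := B.cover
    refine ⟨n + m, fun x => finSumFinEquiv (Sum.map f g x), ?_⟩
    rintro (u | u) (v | v) h1 h2 <;> refine ⟨?_, id⟩
    · simpa using (hf u v (by simpa using h1) (by simpa using h2)).1
    · exact fun e => by simpa using finSumFinEquiv.injective e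
    · exact fun e => by simpa using finSumFinEquiv.injective e
    · simpa using (hg u v (by simpa using h1) (by simpa using h2)).1

/-- Strong product. -/
def Gr.prod (A B : Gr) : Gr where
  V := A.V × B.V
  G := strong A.G B.G
  card_le := by
    simpa using Cardinal.mul_le_of_le Cardinal.aleph0_le_continuum A.card_le B.card_le
  cover := by
    obtain ⟨n, f, hf⟩ := A.cover
    obtain ⟨m, g, hg⟩ := B.cover
    refine ⟨n * m, fun x => finProdFinEquiv (f x.1, g x.2), fun u v h1 h2 => ⟨fun e => ?_, id⟩⟩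
    have e' := Prod.mk.inj (finProdFinEquiv.injective e)
    refine h2 ⟨h1, ?_, ?_⟩
    · by_contra c
      exact (hf _ _ (fun q => c (Or.inl q)) (fun q => c (Or.inr q))).1 e'.1
    · by_contra c
      exact (hg _ _ (fun q => c (Or.inl q)) (fun q => c (Or.inr q))).1 e'.2

/-- The asymptotic spectrum. -/
def Spectrum : Set (Gr → ℝ) :=
  {F | (∀ A, 0 ≤ F A) ∧ (∀ A B, F (A.sum B) = F A + F B) ∧ (∀ A B, F (A.prod B) = F A * F B) ∧
    (∀ n : ℕ, F (Gr.E n) = n) ∧ ∀ A B : Gr, Cohom A.G B.G → F A ≤ F B}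

/-- The asymptotic spectrum distance. -/
noncomputable def dist (A B : Gr) : ℝ := sSup ((fun F => |F A - F B|) '' Spectrum)

end Pool.Agent.H.MP_83ab87_co
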